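import Mathlib

namespace Pool.Agent.Results.MP_15d263_co.IdiomericAnswer

open Set

/-- The Euclidean plane. -/
abbrev Plane : Type := EuclideanSpace ℝ (Fin 2)

/-- The point of the plane with coordinates `(a, b)`. -/
def pt (a b : ℝ) : Plane := !₂[a, b]

/-- The closed (axis-parallel) unit square centred at `c`. -/
def Sq (c : Plane) : Set Plane := {z | |z 0 - c 0| ≤ 1 / 2 ∧ |z 1 - c 1| ≤ 1 / 2}

/-- `T(x,y)`: the union of the closed unit squares centred at `(0,0)` and `(x,y)`. -/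
def Tile (x y : ℤ) : Set Plane := Sq (pt 0 0) ∪ Sq (pt x y)

/-- A tiling: a countable family of closed sets covering the plane, distinct members having
disjoint interiors. -/
def IsTiling (F : Set (Set Plane)) : Prop :=
  F.Countable ∧ (∀ t ∈ F, IsClosed t) ∧ ⋃₀ F = univ ∧
    ∀ t ∈ F, ∀ t' ∈ F, t ≠ t' → Disjoint (interior t) (interior t')

/-- Every tile is congruent to `P` (reflections allowed). -/
def Monohedral (F : Set (Set Plane)) (P : Set Plane) : Prop :=
  ∀ t ∈ F, ∃ e : Plane ≃ᵢ Plane, e '' P = t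

/-- `g` is a symmetry of the tiling: it maps the family of tiles onto itself. -/
def IsSymm (F : Set (Set Plane)) (g : Plane ≃ᵢ Plane) : Prop :=
  (fun t : Set Plane => g '' t) '' F = F

/-- The symmetry group acts transitively on the tiles. -/
def Isohedral (F : Set (Set Plane)) : Prop :=
  ∀ t ∈ F, ∀ t' ∈ F, ∃ g : Plane ≃ᵢ Plane, IsSymm F g ∧ g '' t = t'

/-- Isohedral, and for each tile the induced tile group acts transitively on the
connected components of the tile. -/
def Idiomeric (F : Set (Set Plane)) : Prop :=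
  Isohedral F ∧ ∀ t ∈ F, ∀ a ∈ t, ∀ b ∈ t, ∃ g : Plane ≃ᵢ Plane,
    IsSymm F g ∧ g '' t = t ∧ g '' (connectedComponentIn t a) = connectedComponentIn t b

/-- Every tile is the union of two cells of the regular tiling by unit squares centred at the
points of `ℤ²`. -/
def OnGrid (F : Set (Set Plane)) : Prop :=
  ∀ t ∈ F, ∃ i j k l : ℤ, t = Sq (pt i j) ∪ Sq (pt k l)

@[simp] lemma pt_zero (a b : ℝ) : (pt a b) 0 = a := rfl
@[simp] lemma pt_one (a b : ℝ) : (pt a b) 1 = b := rfl

lemma plane_ext {a b : Plane} (h0 : a 0 = b 0) (h1 : a 1 = b 1) : a = b := by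
  ext i
  fin_cases i
  · exact h0
  · exact h1

lemma cont0 : Continuous (fun z : Plane => z 0) := by fun_prop
lemma cont1 : Continuous (fun z : Plane => z 1) := by fun_prop

lemma isClosed_Sq (c : Plane) : IsClosed (Sq c) := by
  have h0 : IsClosed {z : Plane | |z 0 - c 0| ≤ 1 / 2} :=
    isClosed_le (by fun_prop) continuous_const
  have h1 : IsClosed {z : Plane | |z 1 - c 1| ≤ 1 / 2} :=
    isClosed_le (by fun_prop) continuous_const
  exact h0.inter h1

lemma mem_Sq_self (c : Plane) : c ∈ Sq c := by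
  constructor <;> simp

lemma convex_Sq (c : Plane) : Convex ℝ (Sq c) := by
  intro x hx y hy a b ha hb hab
  obtain ⟨hx0, hx1⟩ := hx
  obtain ⟨hy0, hy1⟩ := hy
  rw [abs_le] at hx0 hx1 hy0 hy1
  have hb' : b = 1 - a := by linarith
  subst hb'
  constructor
  · simp only [PiLp.add_apply, PiLp.smul_apply, smul_eq_mul]
    rw [abs_le]; constructor <;> nlinarith
  · simp only [PiLp.add_apply, PiLp.smul_apply, smul_eq_mul]
    rw [abs_le]; constructor <;> nlinarith

/-- open squares -/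
def Sqo (c : Plane) : Set Plane := {z | |z 0 - c 0| < 1 / 2 ∧ |z 1 - c 1| < 1 / 2}

lemma isOpen_Sqo (c : Plane) : IsOpen (Sqo c) := by
  have h0 : IsOpen {z : Plane | |z 0 - c 0| < 1 / 2} :=
    isOpen_lt (by fun_prop) continuous_const
  have h1 : IsOpen {z : Plane | |z 1 - c 1| < 1 / 2} :=
    isOpen_lt (by fun_prop) continuous_const
  exact h0.inter h1

lemma Sqo_subset (c : Plane) : Sqo c ⊆ Sq c := fun _ hz => ⟨hz.1.le, hz.2.le⟩

lemma mem_interior_Sq (c : Plane) : c ∈ interior (Sq c) := by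
  apply interior_maximal (Sqo_subset c) (isOpen_Sqo c)
  constructor <;> norm_num

lemma Sq_subset_closure (c : Plane) : Sq c ⊆ closure (Sqo c) := by
  intro z hz
  rw [mem_closure_iff]
  intro U hU hzU
  -- move from z towards c
  let f : ℝ → Plane := fun t => z + t • (c - z)
  have hf : Continuous f := by fun_prop
  have h0 : f 0 = z := by simp [f]
  have hpre : IsOpen (f ⁻¹' U) := hU.preimage hf
  have h0mem : (0:ℝ) ∈ f ⁻¹' U := by
    show f 0 ∈ U
    rw [h0]; exact hzU
  obtain ⟨ε, hε, hball⟩ := Metric.isOpen_iff.1 hpre 0 h0mem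
  let t : ℝ := min (ε / 2) (1 / 2)
  have ht0 : 0 < t := lt_min (by linarith) (by norm_num)
  have ht1 : t ≤ 1 / 2 := min_le_right _ _
  have ht2 : t < ε := lt_of_le_of_lt (min_le_left _ _) (by linarith)
  refine ⟨f t, ?_, ?_⟩
  · apply hball
    rw [Metric.mem_ball, Real.dist_eq, sub_zero, abs_of_pos ht0]
    exact ht2
  · obtain ⟨hz0, hz1⟩ := hz
    have e0 : (f t) 0 - c 0 = (1 - t) * (z 0 - c 0) := by
      simp only [f, PiLp.add_apply, PiLp.smul_apply, PiLp.sub_apply, smul_eq_mul]; ring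
    have e1 : (f t) 1 - c 1 = (1 - t) * (z 1 - c 1) := by
      simp only [f, PiLp.add_apply, PiLp.smul_apply, PiLp.sub_apply, smul_eq_mul]; ring
    constructor
    · rw [e0, abs_mul, abs_of_pos (by linarith : (0:ℝ) < 1 - t)]
      have := abs_nonneg (z 0 - c 0)
      nlinarith
    · rw [e1, abs_mul, abs_of_pos (by linarith : (0:ℝ) < 1 - t)]
      have := abs_nonneg (z 1 - c 1)
      nlinarith

lemma open_meets {U : Set Plane} (hU : IsOpen U) (hne : U.Nonempty) {a b : Plane}
    (h : U ⊆ Sq a ∪ Sq b) : ∃ p, (p = a ∨ p = b) ∧ (U ∩ Sqo p).Nonempty := by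
  obtain ⟨z, hz⟩ := hne
  rcases h hz with h1 | h1
  · refine ⟨a, Or.inl rfl, ?_⟩
    exact mem_closure_iff.1 (Sq_subset_closure a h1) U hU hz
  · refine ⟨b, Or.inr rfl, ?_⟩
    exact mem_closure_iff.1 (Sq_subset_closure b h1) U hU hz

lemma interiors_meet {a b a' b' : Plane}
    (h : ¬ Disjoint (interior (Sq a ∪ Sq b)) (interior (Sq a' ∪ Sq b'))) :
    ∃ p p', (p = a ∨ p = b) ∧ (p' = a' ∨ p' = b') ∧ (Sqo p ∩ Sqo p').Nonempty := by
  rw [Set.not_disjoint_iff_nonempty_inter] at h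
  obtain ⟨p, hp, hne⟩ := open_meets (isOpen_interior.inter isOpen_interior) h
    (a := a) (b := b) (fun z hz => interior_subset hz.1)
  obtain ⟨p', hp', hne'⟩ := open_meets
    ((isOpen_interior.inter isOpen_interior).inter (isOpen_Sqo p)) hne
    (a := a') (b := b') (fun z hz => interior_subset hz.1.2)
  refine ⟨p, p', hp, hp', ?_⟩
  obtain ⟨z, hz⟩ := hne'
  exact ⟨z, hz.1.2, hz.2⟩

lemma comp_eq {p q a : Plane} (hd : Disjoint (Sq p) (Sq q)) (ha : a ∈ Sq p) :
    connectedComponentIn (Sq p ∪ Sq q) a = Sq p := by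
  apply Subset.antisymm
  · have hpre : IsPreconnected (connectedComponentIn (Sq p ∪ Sq q) a) :=
      isPreconnected_connectedComponentIn
    have hsub : connectedComponentIn (Sq p ∪ Sq q) a ⊆ Sq p ∪ Sq q :=
      connectedComponentIn_subset _ _
    have hmem : a ∈ connectedComponentIn (Sq p ∪ Sq q) a :=
      mem_connectedComponentIn (Or.inl ha)
    rcases isPreconnected_iff_subset_of_disjoint_closed.1 hpre (Sq p) (Sq q)
      (isClosed_Sq p) (isClosed_Sq q) hsub (by rw [hd.inter_eq, inter_empty]) with h | h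
    · exact h
    · exact absurd (h hmem) (fun h' => (Set.disjoint_left.1 hd) ha h')
  · exact (convex_Sq p).isPreconnected.subset_connectedComponentIn ha subset_union_left

lemma comp_eq' {p q a : Plane} (hd : Disjoint (Sq p) (Sq q)) (ha : a ∈ Sq q) :
    connectedComponentIn (Sq p ∪ Sq q) a = Sq q := by
  rw [union_comm]; exact comp_eq hd.symm ha


/-! ### Existence -/

/-- The centre with index `(i, j)` in the sheared square tiling with shear `s`. -/
def cen (s : ℝ) (i j : ℤ) : Plane := pt i (j + s * i)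

lemma cen_add (s : ℝ) (i j k l : ℤ) : cen s (i + k) (j + l) = cen s i j + cen s k l := by
  apply plane_ext
  · simp [cen]
  · simp [cen]; ring

lemma cen_inj_of_meet {s : ℝ} {i j i' j' : ℤ}
    (h : (Sqo (cen s i j) ∩ Sqo (cen s i' j')).Nonempty) : i = i' ∧ j = j' := by
  obtain ⟨z, ⟨h0, h1⟩, ⟨h0', h1'⟩⟩ := h
  simp only [cen, pt_zero, pt_one] at h0 h1 h0' h1'
  rw [abs_lt] at h0 h1 h0' h1'
  have hi : i = i' := by
    have a1 : (i : ℝ) < i' + 1 := by linarith
    have a2 : (i' : ℝ) < i + 1 := by linarith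
    have b1 : i < i' + 1 := by exact_mod_cast a1
    have b2 : i' < i + 1 := by exact_mod_cast a2
    omega
  subst hi
  refine ⟨rfl, ?_⟩
  have a1 : (j : ℝ) < j' + 1 := by linarith
  have a2 : (j' : ℝ) < j + 1 := by linarith
  have b1 : j < j' + 1 := by exact_mod_cast a1
  have b2 : j' < j + 1 := by exact_mod_cast a2
  omega

lemma cen_cover (s : ℝ) (z : Plane) : ∃ i j : ℤ, z ∈ Sq (cen s i j) := by
  refine ⟨round (z 0), round (z 1 - s * round (z 0)), ?_, ?_⟩
  · simp only [cen, pt_zero]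
    exact abs_sub_round _
  · simp only [cen, pt_one]
    have := abs_sub_round (z 1 - s * round (z 0))
    have e : z 1 - ((round (z 1 - s * round (z 0)) : ℤ) + s * (round (z 0) : ℤ))
      = (z 1 - s * round (z 0)) - (round (z 1 - s * round (z 0)) : ℤ) := by ring
    rw [e]; exact this

/-- tile with index `(i,j)` -/
def latTile (s : ℝ) (k l : ℤ) (i j : ℤ) : Set Plane :=
  Sq (cen s i j) ∪ Sq (cen s (i + k) (j + l))

def latFam (s : ℝ) (α β k l : ℤ) : Set (Set Plane) :=
  {t | ∃ i j : ℤ, Even (α * i + β * j) ∧ t = latTile s k l i j}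

lemma image_Sq_addLeft (v c : Plane) :
    (IsometryEquiv.addLeft v) '' (Sq c) = Sq (v + c) := by
  ext z
  simp only [mem_image]
  constructor
  · rintro ⟨w, ⟨h0, h1⟩, rfl⟩
    constructor
    · simpa using h0
    · simpa using h1
  · rintro ⟨h0, h1⟩
    refine ⟨z - v, ⟨?_, ?_⟩, ?_⟩
    · simp only [PiLp.sub_apply, PiLp.add_apply] at *
      rw [show z 0 - v 0 - c 0 = z 0 - (v 0 + c 0) by ring]; exact h0
    · simp only [PiLp.sub_apply, PiLp.add_apply] at *
      rw [show z 1 - v 1 - c 1 = z 1 - (v 1 + c 1) by ring]; exact h1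
    · simp

lemma image_Sq_subLeft (v c : Plane) :
    (IsometryEquiv.subLeft v) '' (Sq c) = Sq (v - c) := by
  ext z
  simp only [mem_image]
  constructor
  · rintro ⟨w, ⟨h0, h1⟩, rfl⟩
    constructor
    · simp only [IsometryEquiv.subLeft_apply, PiLp.sub_apply]
      rw [show v 0 - w 0 - (v 0 - c 0) = -(w 0 - c 0) by ring, abs_neg]; exact h0
    · simp only [IsometryEquiv.subLeft_apply, PiLp.sub_apply]
      rw [show v 1 - w 1 - (v 1 - c 1) = -(w 1 - c 1) by ring, abs_neg]; exact h1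
  · rintro ⟨h0, h1⟩
    refine ⟨v - z, ⟨?_, ?_⟩, ?_⟩
    · simp only [PiLp.sub_apply] at *
      rw [show v 0 - z 0 - c 0 = -(z 0 - (v 0 - c 0)) by ring, abs_neg]; exact h0
    · simp only [PiLp.sub_apply] at *
      rw [show v 1 - z 1 - c 1 = -(z 1 - (v 1 - c 1)) by ring, abs_neg]; exact h1
    · simp

lemma image_latTile_add (s : ℝ) (k l i j i' j' : ℤ) :
    (IsometryEquiv.addLeft (cen s i' j')) '' (latTile s k l i j)
      = latTile s k l (i + i') (j + j') := by
  unfold latTile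
  rw [image_union, image_Sq_addLeft, image_Sq_addLeft]
  congr 2
  · rw [← cen_add]; congr 1 <;> ring
  · rw [← cen_add]; congr 1 <;> ring

lemma cen_sub (s : ℝ) (i j k l : ℤ) : cen s (i - k) (j - l) = cen s i j - cen s k l := by
  apply plane_ext
  · simp [cen]
  · simp [cen]; ring

lemma image_latTile_sub (s : ℝ) (k l i j i' j' : ℤ) :
    (IsometryEquiv.subLeft (cen s i' j')) '' (latTile s k l i j)
      = latTile s k l (i' - i - k) (j' - j - l) := by
  unfold latTile
  rw [image_union, image_Sq_subLeft, image_Sq_subLeft, union_comm]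
  congr 2
  · rw [← cen_sub]; congr 1 <;> ring
  · rw [← cen_sub]; congr 1 <;> ring

lemma isSymm_of {F : Set (Set Plane)} (g : Plane ≃ᵢ Plane)
    (h1 : ∀ t ∈ F, g '' t ∈ F) (h2 : ∀ t ∈ F, ∃ t' ∈ F, g '' t' = t) : IsSymm F g := by
  apply Subset.antisymm
  · rintro _ ⟨t, ht, rfl⟩
    exact h1 t ht
  · intro t ht
    obtain ⟨t', ht', he⟩ := h2 t ht
    exact ⟨t', ht', he⟩

lemma symm_add (s : ℝ) (α β k l i' j' : ℤ) (he : Even (α * i' + β * j')) :
    IsSymm (latFam s α β k l) (IsometryEquiv.addLeft (cen s i' j')) := by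
  apply isSymm_of
  · rintro _ ⟨i, j, hij, rfl⟩
    refine ⟨i + i', j + j', ?_, image_latTile_add _ _ _ _ _ _ _⟩
    have : α * (i + i') + β * (j + j') = (α * i + β * j) + (α * i' + β * j') := by ring
    rw [this]; exact hij.add he
  · rintro _ ⟨i, j, hij, rfl⟩
    refine ⟨latTile s k l (i - i') (j - j'), ⟨i - i', j - j', ?_, rfl⟩, ?_⟩
    · have : α * (i - i') + β * (j - j') = (α * i + β * j) - (α * i' + β * j') := by ring
      rw [this]; exact hij.sub he
    · rw [image_latTile_add]; congr 1 <;> ring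

lemma symm_sub (s : ℝ) (α β k l i' j' : ℤ) (hv : Odd (α * k + β * l))
    (he : Odd (α * i' + β * j')) :
    IsSymm (latFam s α β k l) (IsometryEquiv.subLeft (cen s i' j')) := by
  apply isSymm_of
  · rintro _ ⟨i, j, hij, rfl⟩
    refine ⟨i' - i - k, j' - j - l, ?_, image_latTile_sub _ _ _ _ _ _ _⟩
    have : α * (i' - i - k) + β * (j' - j - l)
      = ((α * i' + β * j') - (α * k + β * l)) - (α * i + β * j) := by ring
    rw [this]; exact (he.sub_odd hv).sub hij
  · rintro _ ⟨i, j, hij, rfl⟩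
    refine ⟨latTile s k l (i' - i - k) (j' - j - l), ⟨_, _, ?_, rfl⟩, ?_⟩
    · have : α * (i' - i - k) + β * (j' - j - l)
        = ((α * i' + β * j') - (α * k + β * l)) - (α * i + β * j) := by ring
      rw [this]; exact (he.sub_odd hv).sub hij
    · rw [image_latTile_sub]; congr 1 <;> ring

lemma lat_tiling (s : ℝ) (α β k l : ℤ) (hv : Odd (α * k + β * l)) :
    IsTiling (latFam s α β k l) := by
  refine ⟨?_, ?_, ?_, ?_⟩
  · have : latFam s α β k l ⊆ range (fun p : ℤ × ℤ => latTile s k l p.1 p.2) := by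
      rintro _ ⟨i, j, _, rfl⟩
      exact ⟨(i, j), rfl⟩
    exact (countable_range _).mono this
  · rintro _ ⟨i, j, _, rfl⟩
    exact (isClosed_Sq _).union (isClosed_Sq _)
  · apply eq_univ_of_forall
    intro z
    obtain ⟨i, j, hz⟩ := cen_cover s z
    rcases Int.even_or_odd (α * i + β * j) with he | ho
    · exact ⟨latTile s k l i j, ⟨i, j, he, rfl⟩, Or.inl hz⟩
    · refine ⟨latTile s k l (i - k) (j - l), ⟨i - k, j - l, ?_, rfl⟩, Or.inr ?_⟩
      · have : α * (i - k) + β * (j - l) = (α * i + β * j) - (α * k + β * l) := by ring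
        rw [this]; exact ho.sub_odd hv
      · simpa using hz
  · rintro _ ⟨i, j, hij, rfl⟩ _ ⟨i', j', hij', rfl⟩ hne
    by_contra hcon
    apply hne
    obtain ⟨p, p', hp, hp', hmeet⟩ := interiors_meet hcon
    rcases hp with rfl | rfl <;> rcases hp' with rfl | rfl
    · obtain ⟨h1, h2⟩ := cen_inj_of_meet hmeet
      rw [h1, h2]
    · exfalso
      obtain ⟨h1, h2⟩ := cen_inj_of_meet hmeet
      rw [h1, h2] at hij
      have : α * (i' + k) + β * (j' + l) = (α * i' + β * j') + (α * k + β * l) := by ring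
      rw [this] at hij
      exact (Int.not_even_iff_odd.2 (hij'.add_odd hv)) hij
    · exfalso
      obtain ⟨h1, h2⟩ := cen_inj_of_meet hmeet
      rw [← h1, ← h2] at hij'
      have : α * (i + k) + β * (j + l) = (α * i + β * j) + (α * k + β * l) := by ring
      rw [this] at hij'
      exact (Int.not_even_iff_odd.2 (hij.add_odd hv)) hij'
    · obtain ⟨h1, h2⟩ := cen_inj_of_meet hmeet
      have e1 : i = i' := by omega
      have e2 : j = j' := by omega
      rw [e1, e2]

lemma lat_mono (s : ℝ) (α β k l x y : ℤ) (hxy : cen s k l = pt x y) :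
    Monohedral (latFam s α β k l) (Tile x y) := by
  rintro _ ⟨i, j, _, rfl⟩
  refine ⟨IsometryEquiv.addLeft (cen s i j), ?_⟩
  unfold Tile latTile
  rw [image_union, image_Sq_addLeft, image_Sq_addLeft, ← hxy, cen_add]
  congr 2
  apply plane_ext <;> simp

lemma lat_iso (s : ℝ) (α β k l : ℤ) : Isohedral (latFam s α β k l) := by
  rintro _ ⟨i, j, hij, rfl⟩ _ ⟨i', j', hij', rfl⟩
  refine ⟨IsometryEquiv.addLeft (cen s (i' - i) (j' - j)), symm_add _ _ _ _ _ _ _ ?_, ?_⟩
  · have : α * (i' - i) + β * (j' - j) = (α * i' + β * j') - (α * i + β * j) := by ring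
    rw [this]; exact hij'.sub hij
  · rw [image_latTile_add]; congr 1 <;> ring

lemma disj_translate {v a b : Plane} (h : Disjoint (Sq a) (Sq b)) :
    Disjoint (Sq (v + a)) (Sq (v + b)) := by
  rw [← image_Sq_addLeft, ← image_Sq_addLeft]
  exact (Set.disjoint_image_iff (IsometryEquiv.addLeft v).injective).2 h

lemma refl_image (t : Set Plane) : (IsometryEquiv.refl Plane) '' t = t := by
  show (fun z : Plane => z) '' t = t
  simp

lemma trans_image (f g : Plane ≃ᵢ Plane) (t : Set Plane) :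
    (f.trans g) '' t = g '' (f '' t) := by
  show (fun z : Plane => g (f z)) '' t = g '' (f '' t)
  rw [image_image]

lemma lat_idio (s : ℝ) (α β k l : ℤ) (hv : Odd (α * k + β * l))
    (hd : Disjoint (Sq (cen s 0 0)) (Sq (cen s k l))) :
    Idiomeric (latFam s α β k l) := by
  refine ⟨lat_iso s α β k l, ?_⟩
  rintro _ ⟨i, j, hij, rfl⟩ a ha b hb
  have hd' : Disjoint (Sq (cen s i j)) (Sq (cen s (i + k) (j + l))) := by
    have := disj_translate (v := cen s i j) hd
    rwa [← cen_add, ← cen_add, add_zero, add_zero] at this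
  have hid : IsSymm (latFam s α β k l) (IsometryEquiv.refl Plane) := by
    apply isSymm_of
    · intro t ht; rw [refl_image]; exact ht
    · intro t ht; exact ⟨t, ht, refl_image t⟩
  have hswap : IsSymm (latFam s α β k l)
      (IsometryEquiv.subLeft (cen s (2 * i + k) (2 * j + l))) := by
    apply symm_sub _ _ _ _ _ _ _ hv
    have : α * (2 * i + k) + β * (2 * j + l) = 2 * (α * i + β * j) + (α * k + β * l) := by ring
    rw [this]; exact (even_two_mul _).add_odd hv
  have him : (IsometryEquiv.subLeft (cen s (2 * i + k) (2 * j + l))) '' latTile s k l i j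
      = latTile s k l i j := by
    rw [image_latTile_sub]; congr 1 <;> ring
  have him1 : (IsometryEquiv.subLeft (cen s (2 * i + k) (2 * j + l))) '' Sq (cen s i j)
      = Sq (cen s (i + k) (j + l)) := by
    rw [image_Sq_subLeft, ← cen_sub]; congr 2 <;> ring
  have him2 : (IsometryEquiv.subLeft (cen s (2 * i + k) (2 * j + l))) ''
      Sq (cen s (i + k) (j + l)) = Sq (cen s i j) := by
    rw [image_Sq_subLeft, ← cen_sub]; congr 2 <;> ring
  rcases ha with ha | ha <;> rcases hb with hb | hb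
  · refine ⟨IsometryEquiv.refl Plane, hid, refl_image _, ?_⟩
    unfold latTile
    rw [comp_eq hd' ha, comp_eq hd' hb]; exact refl_image _
  · refine ⟨_, hswap, him, ?_⟩
    unfold latTile
    rw [comp_eq hd' ha, comp_eq' hd' hb]; exact him1
  · refine ⟨_, hswap, him, ?_⟩
    unfold latTile
    rw [comp_eq' hd' ha, comp_eq hd' hb]; exact him2
  · refine ⟨IsometryEquiv.refl Plane, hid, refl_image _, ?_⟩
    unfold latTile
    rw [comp_eq' hd' ha, comp_eq' hd' hb]; exact refl_image _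

lemma disj_tile {x y : ℤ} (h : 2 ≤ max |x| |y|) : Disjoint (Sq (pt 0 0)) (Sq (pt x y)) := by
  rw [Set.disjoint_left]
  rintro z ⟨h0, h1⟩ ⟨h0', h1'⟩
  simp only [pt_zero, pt_one] at h0 h1 h0' h1'
  rw [abs_le] at h0 h1 h0' h1'
  have a1 : (x : ℝ) ≤ 1 := by linarith
  have a2 : (-1 : ℝ) ≤ x := by linarith
  have a3 : (y : ℝ) ≤ 1 := by linarith
  have a4 : (-1 : ℝ) ≤ y := by linarith
  have b1 : x ≤ 1 := by exact_mod_cast a1
  have b2 : -1 ≤ x := by exact_mod_cast a2
  have b3 : y ≤ 1 := by exact_mod_cast a3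
  have b4 : -1 ≤ y := by exact_mod_cast a4
  have c1 : |x| ≤ 1 := abs_le.2 ⟨b2, b1⟩
  have c2 : |y| ≤ 1 := abs_le.2 ⟨b4, b3⟩
  have : max |x| |y| ≤ 1 := max_le c1 c2
  omega

lemma exists_literal_aux {x y : ℤ} (h : 2 ≤ max |x| |y|) (hx : x ≠ 0) :
    ∃ F, IsTiling F ∧ Monohedral F (Tile x y) ∧ Idiomeric F := by
  have hx' : (x : ℝ) ≠ 0 := by exact_mod_cast hx
  let s : ℝ := ((y : ℝ) - 1) / x
  have hc : cen s x 1 = pt x y := by
    apply plane_ext
    · simp [cen]
    · simp only [cen, pt_one, s]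
      field_simp
      push_cast; ring
  have hc0 : cen s 0 0 = pt 0 0 := by
    apply plane_ext <;> simp [cen]
  have hv : Odd (0 * x + 1 * 1 : ℤ) := by simp
  refine ⟨latFam s 0 1 x 1, lat_tiling _ _ _ _ _ hv, lat_mono _ _ _ _ _ _ _ hc,
    lat_idio _ _ _ _ _ hv ?_⟩
  rw [hc, hc0]
  exact disj_tile h

/-- coordinate swap -/
noncomputable def swp : Plane ≃ᵢ Plane :=
  (LinearIsometryEquiv.piLpCongrLeft 2 ℝ ℝ (Equiv.swap (0 : Fin 2) 1)).toIsometryEquiv

lemma swp_zero (z : Plane) : (swp z) 0 = z 1 := by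
  simp [swp, LinearIsometryEquiv.piLpCongrLeft_apply]

lemma swp_one (z : Plane) : (swp z) 1 = z 0 := by
  simp [swp, LinearIsometryEquiv.piLpCongrLeft_apply]

lemma image_Sq_swp (a b : ℝ) : swp '' Sq (pt a b) = Sq (pt b a) := by
  ext z
  constructor
  · rintro ⟨w, ⟨h0, h1⟩, rfl⟩
    constructor
    · rw [swp_zero]; exact h1
    · rw [swp_one]; exact h0
  · rintro ⟨h0, h1⟩
    refine ⟨swp z, ⟨?_, ?_⟩, ?_⟩
    · rw [swp_zero]; exact h1
    · rw [swp_one]; exact h0
    · apply plane_ext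
      · rw [swp_zero, swp_one]
      · rw [swp_one, swp_zero]

lemma image_Tile_swp (x y : ℤ) : swp '' Tile x y = Tile y x := by
  unfold Tile
  rw [image_union, image_Sq_swp, image_Sq_swp]

lemma mono_swap {F : Set (Set Plane)} {x y : ℤ} (h : Monohedral F (Tile y x)) :
    Monohedral F (Tile x y) := by
  intro t ht
  obtain ⟨e, he⟩ := h t ht
  refine ⟨swp.trans e, ?_⟩
  rw [trans_image, image_Tile_swp, he]

lemma exists_literal {x y : ℤ} (h : 2 ≤ max |x| |y|) :
    ∃ F, IsTiling F ∧ Monohedral F (Tile x y) ∧ Idiomeric F := by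
  by_cases hx : x = 0
  · have hy : y ≠ 0 := by
      rintro rfl
      subst hx
      simp at h
    obtain ⟨F, h1, h2, h3⟩ := exists_literal_aux (x := y) (y := x) (by rwa [max_comm]) hy
    exact ⟨F, h1, mono_swap h2, h3⟩
  · exact exists_literal_aux h hx

lemma exists_grid {x y : ℤ} (h : 2 ≤ max |x| |y|) (hne : ¬ (Even x ∧ Even y)) :
    ∃ F, IsTiling F ∧ Monohedral F (Tile x y) ∧ Idiomeric F ∧ OnGrid F := by
  have hc : ∀ i j : ℤ, cen 0 i j = pt i j := by
    intro i j
    apply plane_ext <;> simp [cen]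
  have hc0 : cen 0 0 0 = pt 0 0 := by
    apply plane_ext <;> simp [cen]
  obtain ⟨α, β, hv⟩ : ∃ α β : ℤ, Odd (α * x + β * y) := by
    by_cases hx : Even x
    · have hy : Odd y := by
        rw [← Int.not_even_iff_odd]
        exact fun hy => hne ⟨hx, hy⟩
      exact ⟨0, 1, by simpa using hy⟩
    · rw [Int.not_even_iff_odd] at hx
      exact ⟨1, 0, by simpa using hx⟩
  refine ⟨latFam 0 α β x y, lat_tiling _ _ _ _ _ hv, lat_mono _ _ _ _ _ _ _ (hc x y),
    lat_idio _ _ _ _ _ hv ?_, ?_⟩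
  · rw [hc0, hc]
    exact disj_tile h
  · rintro _ ⟨i, j, _, rfl⟩
    refine ⟨i, j, i + x, j + y, ?_⟩
    unfold latTile
    rw [hc, hc]


/-! ### Nonexistence on the grid -/

lemma dist_sq (z w : Plane) : dist z w ^ 2 = (z 0 - w 0) ^ 2 + (z 1 - w 1) ^ 2 := by
  rw [EuclideanSpace.dist_eq, Real.sq_sqrt (by positivity)]
  simp only [Fin.sum_univ_two, Real.dist_eq, sq_abs]

lemma dist_sq_le {z c : Plane} (h : z ∈ Sq c) : dist z c ^ 2 ≤ 1 / 2 := by
  rw [dist_sq]
  obtain ⟨h0, h1⟩ := h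
  have a0 : (z 0 - c 0) ^ 2 ≤ (1 / 2) ^ 2 := sq_le_sq.2 (by rwa [abs_of_pos (by norm_num : (0:ℝ) < 1/2)])
  have a1 : (z 1 - c 1) ^ 2 ≤ (1 / 2) ^ 2 := sq_le_sq.2 (by rwa [abs_of_pos (by norm_num : (0:ℝ) < 1/2)])
  linarith

lemma centre_map {f : Plane ≃ᵢ Plane} {a b : Plane} (h : f '' Sq a = Sq b) : f a = b := by
  have key : ∀ w ∈ Sq b, dist w (f a) ^ 2 ≤ 1 / 2 := by
    intro w hw
    rw [← h] at hw
    obtain ⟨z, hz, rfl⟩ := hw
    rw [f.isometry.dist_eq]
    exact dist_sq_le hz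
  have h1 := key (pt (b 0 + 1 / 2) (b 1 + 1 / 2)) (by
    constructor <;> simp [abs_of_pos])
  have h2 := key (pt (b 0 - 1 / 2) (b 1 - 1 / 2)) (by
    constructor <;> simp [abs_of_pos])
  rw [dist_sq] at h1 h2
  simp only [pt_zero, pt_one] at h1 h2
  have e0 : ((f a) 0 - b 0) ^ 2 ≤ 0 := by
    nlinarith [sq_nonneg ((f a) 1 - b 1)]
  have e1 : ((f a) 1 - b 1) ^ 2 ≤ 0 := by
    nlinarith [sq_nonneg ((f a) 0 - b 0)]
  have f0 : (f a) 0 - b 0 = 0 := by
    have := le_antisymm e0 (sq_nonneg _)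
    exact pow_eq_zero_iff (two_ne_zero) |>.1 this
  have f1 : (f a) 1 - b 1 = 0 := by
    have := le_antisymm e1 (sq_nonneg _)
    exact pow_eq_zero_iff (two_ne_zero) |>.1 this
  exact plane_ext (by linarith) (by linarith)

lemma ne_of_disj {a b : Plane} (h : Disjoint (Sq a) (Sq b)) : a ≠ b := by
  rintro rfl
  exact Set.disjoint_left.1 h (mem_Sq_self a) (mem_Sq_self a)

lemma image_comp_in (f : Plane ≃ᵢ Plane) {F : Set Plane} {x : Plane} (hx : x ∈ F) :
    f '' connectedComponentIn F x = connectedComponentIn (f '' F) (f x) :=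
  f.toHomeomorph.image_connectedComponentIn hx

lemma pair_map {f : Plane ≃ᵢ Plane} {a b c d : Plane} (hab : Disjoint (Sq a) (Sq b))
    (hcd : Disjoint (Sq c) (Sq d)) (h : f '' (Sq a ∪ Sq b) = Sq c ∪ Sq d) :
    (f a = c ∧ f b = d) ∨ (f a = d ∧ f b = c) := by
  have key : ∀ p, (p = a ∨ p = b) → f p = c ∨ f p = d := by
    intro p hp
    have hpmem : p ∈ Sq a ∪ Sq b := by
      rcases hp with rfl | rfl
      · exact Or.inl (mem_Sq_self _)
      · exact Or.inr (mem_Sq_self _)
    have himg := image_comp_in f hpmem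
    have hcomp : connectedComponentIn (Sq a ∪ Sq b) p = Sq p := by
      rcases hp with rfl | rfl
      · exact comp_eq hab (mem_Sq_self _)
      · exact comp_eq' hab (mem_Sq_self _)
    have hfp : f p ∈ Sq c ∪ Sq d := by
      rw [← h]; exact mem_image_of_mem f hpmem
    rw [hcomp, h] at himg
    rcases hfp with h1 | h1
    · left
      rw [comp_eq hcd h1] at himg
      exact centre_map himg
    · right
      rw [comp_eq' hcd h1] at himg
      exact centre_map himg
  have hne : f a ≠ f b := fun hh => ne_of_disj hab (f.injective hh)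
  rcases key a (Or.inl rfl) with h1 | h1 <;> rcases key b (Or.inr rfl) with h2 | h2
  · exact absurd (h1.trans h2.symm) hne
  · exact Or.inl ⟨h1, h2⟩
  · exact Or.inr ⟨h1, h2⟩
  · exact absurd (h1.trans h2.symm) hne

lemma fix_all {g : Plane ≃ᵢ Plane} {p q m n : Plane} (hp : g p = p) (hq : g q = q)
    (hm : g m = m) (hn : g n = n) (m0 : m 0 = (p 0 + q 0) / 2) (m1 : m 1 = (p 1 + q 1) / 2)
    (hnpq : dist n p = dist n q) (hnm : n ≠ m) (hpq : p ≠ q) (z : Plane) : g z = z := by
  have dd : ∀ c, g c = c → ((g z) 0 - c 0) ^ 2 + ((g z) 1 - c 1) ^ 2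
      = (z 0 - c 0) ^ 2 + (z 1 - c 1) ^ 2 := by
    intro c hc
    rw [← dist_sq, ← dist_sq]
    conv_lhs => rw [← hc]
    rw [g.isometry.dist_eq]
  have d1 := dd p hp
  have d2 := dd q hq
  have d3 := dd m hm
  have d4 := dd n hn
  have d5 : (n 0 - p 0) ^ 2 + (n 1 - p 1) ^ 2 = (n 0 - q 0) ^ 2 + (n 1 - q 1) ^ 2 := by
    rw [← dist_sq, ← dist_sq, hnpq]
  obtain ⟨w0, hw0⟩ : ∃ w0, w0 = (g z) 0 - z 0 := ⟨_, rfl⟩
  obtain ⟨w1, hw1⟩ : ∃ w1, w1 = (g z) 1 - z 1 := ⟨_, rfl⟩
  obtain ⟨A0, hA0⟩ : ∃ A0, A0 = q 0 - p 0 := ⟨_, rfl⟩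
  obtain ⟨A1, hA1⟩ : ∃ A1, A1 = q 1 - p 1 := ⟨_, rfl⟩
  obtain ⟨B0, hB0⟩ : ∃ B0, B0 = n 0 - m 0 := ⟨_, rfl⟩
  obtain ⟨B1, hB1⟩ : ∃ B1, B1 = n 1 - m 1 := ⟨_, rfl⟩
  have o1 : w0 * A0 + w1 * A1 = 0 := by
    rw [hw0, hw1, hA0, hA1]; linarith
  have o2 : w0 * B0 + w1 * B1 = 0 := by
    rw [hw0, hw1, hB0, hB1]; linarith
  have o3 : A0 * B0 + A1 * B1 = 0 := by
    rw [hA0, hA1, hB0, hB1, m0, m1]; linarith
  have hA : A0 ^ 2 + A1 ^ 2 ≠ 0 := by
    intro hh
    apply hpq
    have a0 : A0 = 0 := by nlinarith [sq_nonneg A0, sq_nonneg A1]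
    have a1 : A1 = 0 := by nlinarith [sq_nonneg A0, sq_nonneg A1]
    exact plane_ext (by linarith) (by linarith)
  have hB : B0 ^ 2 + B1 ^ 2 ≠ 0 := by
    intro hh
    apply hnm
    have a0 : B0 = 0 := by nlinarith [sq_nonneg B0, sq_nonneg B1]
    have a1 : B1 = 0 := by nlinarith [sq_nonneg B0, sq_nonneg B1]
    exact plane_ext (by linarith) (by linarith)
  have hdet : (A0 * B1 - A1 * B0) ^ 2 = (A0 ^ 2 + A1 ^ 2) * (B0 ^ 2 + B1 ^ 2) := by
    have : (A0 * B1 - A1 * B0) ^ 2
      = (A0 ^ 2 + A1 ^ 2) * (B0 ^ 2 + B1 ^ 2) - (A0 * B0 + A1 * B1) ^ 2 := by ring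
    rw [this, o3]; ring
  have hdet' : A0 * B1 - A1 * B0 ≠ 0 := by
    intro hh
    rw [hh] at hdet
    exact mul_ne_zero hA hB (by rw [← hdet]; ring)
  have r0 : w0 * (A0 * B1 - A1 * B0) = 0 := by linear_combination B1 * o1 - A1 * o2
  have r1 : w1 * (A0 * B1 - A1 * B0) = 0 := by linear_combination A0 * o2 - B0 * o1
  have s0 : w0 = 0 := (mul_eq_zero.1 r0).resolve_right hdet'
  have s1 : w1 = 0 := (mul_eq_zero.1 r1).resolve_right hdet'
  exact plane_ext (by linarith) (by linarith)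

lemma even_of_sq {a b x y : ℤ} (hx : Even x) (hy : Even y) (h : a ^ 2 + b ^ 2 = x ^ 2 + y ^ 2) :
    Even a ∧ Even b := by
  obtain ⟨u, rfl⟩ := hx
  obtain ⟨v, rfl⟩ := hy
  have h4 : (a ^ 2 + b ^ 2) % 4 = 0 := by
    rw [h]
    have : (u + u) ^ 2 + (v + v) ^ 2 = 4 * (u ^ 2 + v ^ 2) := by ring
    rw [this]; simp
  rcases Int.even_or_odd' a with ⟨c, rfl | rfl⟩ <;> rcases Int.even_or_odd' b with ⟨d, rfl | rfl⟩
  · exact ⟨even_two_mul _, even_two_mul _⟩
  · exfalso
    have : (2 * c) ^ 2 + (2 * d + 1) ^ 2 = 4 * (c ^ 2 + d ^ 2 + d) + 1 := by ring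
    rw [this] at h4; omega
  · exfalso
    have : (2 * c + 1) ^ 2 + (2 * d) ^ 2 = 4 * (c ^ 2 + d ^ 2 + c) + 1 := by ring
    rw [this] at h4; omega
  · exfalso
    have : (2 * c + 1) ^ 2 + (2 * d + 1) ^ 2 = 4 * (c ^ 2 + d ^ 2 + c + d) + 2 := by ring
    rw [this] at h4; omega

/-- Two disjoint closed connected sets `A, B` with union `P ∪ Q`, `P`, `Q` preconnected. -/
lemma pieces {A B P Q : Set Plane} (hA : IsClosed A) (hB : IsClosed B) (hd : Disjoint A B)
    (hAn : A.Nonempty) (hBn : B.Nonempty) (hP : IsPreconnected P) (hQ : IsPreconnected Q)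
    (h : P ∪ Q = A ∪ B) : (P = A ∧ Q = B) ∨ (P = B ∧ Q = A) := by
  have hAB : A ∩ B = ∅ := hd.inter_eq
  have p1 := isPreconnected_iff_subset_of_disjoint_closed.1 hP A B hA hB
    (by rw [← h]; exact subset_union_left) (by rw [hAB, inter_empty])
  have q1 := isPreconnected_iff_subset_of_disjoint_closed.1 hQ A B hA hB
    (by rw [← h]; exact subset_union_right) (by rw [hAB, inter_empty])
  have hdl := Set.disjoint_left.1 hd
  rcases p1 with p1 | p1 <;> rcases q1 with q1 | q1
  · exfalso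
    obtain ⟨b, hb⟩ := hBn
    have : b ∈ P ∪ Q := by rw [h]; exact Or.inr hb
    rcases this with h' | h'
    · exact hdl (p1 h') hb
    · exact hdl (q1 h') hb
  · left
    constructor
    · apply Subset.antisymm p1
      intro a ha
      have : a ∈ P ∪ Q := by rw [h]; exact Or.inl ha
      rcases this with h' | h'
      · exact h'
      · exact absurd (q1 h') (hdl ha)
    · apply Subset.antisymm q1
      intro a ha
      have : a ∈ P ∪ Q := by rw [h]; exact Or.inr ha
      rcases this with h' | h'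
      · exact absurd ha (hdl (p1 h'))
      · exact h'
  · right
    constructor
    · apply Subset.antisymm p1
      intro a ha
      have : a ∈ P ∪ Q := by rw [h]; exact Or.inr ha
      rcases this with h' | h'
      · exact h'
      · exact absurd ha (hdl (q1 h'))
    · apply Subset.antisymm q1
      intro a ha
      have : a ∈ P ∪ Q := by rw [h]; exact Or.inl ha
      rcases this with h' | h'
      · exact absurd (p1 h') (hdl ha)
      · exact h'
  · exfalso
    obtain ⟨b, hb⟩ := hAn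
    have : b ∈ P ∪ Q := by rw [h]; exact Or.inl hb
    rcases this with h' | h'
    · exact hdl hb (p1 h')
    · exact hdl hb (q1 h')

lemma grid_pair {x y i j k l : ℤ} (hmax : 2 ≤ max |x| |y|) (hx : Even x) (hy : Even y)
    {e : Plane ≃ᵢ Plane} (he : e '' Tile x y = Sq (pt i j) ∪ Sq (pt k l)) :
    Disjoint (Sq (pt i j)) (Sq (pt k l)) ∧ Even (k - i) ∧ Even (l - j) := by
  have hd := disj_tile hmax
  have hdi : Disjoint (e '' Sq (pt 0 0)) (e '' Sq (pt x y)) :=
    (Set.disjoint_image_iff e.injective).2 hd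
  have hun : Sq (pt i j) ∪ Sq (pt k l) = e '' Sq (pt 0 0) ∪ e '' Sq (pt x y) := by
    rw [← he, Tile, image_union]
  have hcl : ∀ c, IsClosed (e '' Sq c) := fun c =>
    e.toHomeomorph.isClosed_image.2 (isClosed_Sq c)
  have hne : ∀ c, (e '' Sq c).Nonempty := fun c => ⟨e c, c, mem_Sq_self c, rfl⟩
  have hgen : ∀ a b : Plane, dist a b ^ 2 = dist (pt 0 0) (pt x y) ^ 2 →
      (b 0 - a 0) ^ 2 + (b 1 - a 1) ^ 2 = (x : ℝ) ^ 2 + y ^ 2 := by
    intro a b hab
    rw [dist_sq, dist_sq] at hab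
    simp only [pt_zero, pt_one] at hab
    linarith
  have fin : ∀ i j k l : ℤ, dist (pt i j) (pt k l) ^ 2 = dist (pt 0 0) (pt x y) ^ 2 →
      Even (k - i) ∧ Even (l - j) := by
    intro i j k l h
    have := hgen _ _ h
    simp only [pt_zero, pt_one] at this
    apply even_of_sq hx hy
    exact_mod_cast this
  rcases pieces (hcl _) (hcl _) hdi (hne _) (hne _) (convex_Sq _).isPreconnected
    (convex_Sq _).isPreconnected hun with ⟨h1, h2⟩ | ⟨h1, h2⟩
  · refine ⟨by rw [h1, h2]; exact hdi, ?_⟩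
    apply fin
    rw [← centre_map h1.symm, ← centre_map h2.symm, e.isometry.dist_eq]
  · refine ⟨by rw [h1, h2]; exact hdi.symm, ?_⟩
    apply fin
    rw [← centre_map h1.symm, ← centre_map h2.symm, e.isometry.dist_eq, dist_comm]

lemma tile_unique {F : Set (Set Plane)} (hT : IsTiling F) {t t' : Set Plane} (ht : t ∈ F)
    (ht' : t' ∈ F) {m : Plane} (h : m ∈ interior t) (h' : m ∈ interior t') : t = t' := by
  by_contra hne
  exact Set.disjoint_left.1 (hT.2.2.2 t ht t' ht' hne) h h'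

lemma mem_int_left (a b : Plane) : a ∈ interior (Sq a ∪ Sq b) :=
  interior_mono subset_union_left (mem_interior_Sq a)

lemma symm_mem {F : Set (Set Plane)} {g : Plane ≃ᵢ Plane} (hg : IsSymm F g) {t : Set Plane}
    (ht : t ∈ F) : g '' t ∈ F := by
  have : g '' t ∈ (fun t : Set Plane => g '' t) '' F := ⟨t, ht, rfl⟩
  rwa [hg] at this

lemma symm_mem_symm {F : Set (Set Plane)} {g : Plane ≃ᵢ Plane} (hg : IsSymm F g) {t : Set Plane}
    (ht : t ∈ F) : g.symm '' t ∈ F := by
  have : t ∈ (fun t : Set Plane => g '' t) '' F := by rw [hg]; exact ht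
  obtain ⟨t', ht', rfl⟩ := this
  have : g.symm '' (g '' t') = t' := by
    rw [image_image]; simp
  simp only [this]
  exact ht'

lemma mem_int_image {g : Plane ≃ᵢ Plane} {t : Set Plane} {m : Plane} (h : m ∈ interior t) :
    g m ∈ interior (g '' t) := by
  have : interior (g '' t) = g '' interior t := (g.toHomeomorph.image_interior t).symm
  rw [this]; exact mem_image_of_mem g h

lemma int_eq_of_abs_le {a b : ℤ} (h : |(a : ℝ) - b| ≤ 1 / 2) : a = b := by
  rw [abs_le] at h
  have a1 : (a : ℝ) < b + 1 := by linarith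
  have a2 : (b : ℝ) < a + 1 := by linarith
  have b1 : a < b + 1 := by exact_mod_cast a1
  have b2 : b < a + 1 := by exact_mod_cast a2
  omega

lemma exists_partner {F : Set (Set Plane)} (hT : IsTiling F) (hG : OnGrid F) (i j : ℤ) :
    ∃ k l : ℤ, Sq (pt i j) ∪ Sq (pt k l) ∈ F := by
  have : pt i j ∈ ⋃₀ F := by rw [hT.2.2.1]; trivial
  obtain ⟨t, ht, hmem⟩ := this
  obtain ⟨i', j', k', l', rfl⟩ := hG t ht
  rcases hmem with ⟨h0, h1⟩ | ⟨h0, h1⟩
  · simp only [pt_zero, pt_one] at h0 h1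
    have e0 := int_eq_of_abs_le h0
    have e1 := int_eq_of_abs_le h1
    subst e0; subst e1
    exact ⟨k', l', ht⟩
  · simp only [pt_zero, pt_one] at h0 h1
    have e0 := int_eq_of_abs_le h0
    have e1 := int_eq_of_abs_le h1
    subst e0; subst e1
    rw [union_comm] at ht
    exact ⟨i', j', ht⟩

theorem no_grid {x y : ℤ} (hmax : 2 ≤ max |x| |y|) (hx : Even x) (hy : Even y)
    {F : Set (Set Plane)} (hT : IsTiling F) (hM : Monohedral F (Tile x y)) (hI : Idiomeric F)
    (hG : OnGrid F) : False := by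
  -- the first tile
  obtain ⟨k, l, ht⟩ := exists_partner hT hG 0 0
  obtain ⟨e, he⟩ := hM _ ht
  obtain ⟨hd, hek, hel⟩ := grid_pair hmax hx hy he
  rw [sub_zero] at hek hel
  obtain ⟨m0, hm0⟩ := hek
  obtain ⟨m1, hm1⟩ := hel
  obtain ⟨p, hp⟩ : ∃ p, p = pt (0 : ℤ) (0 : ℤ) := ⟨_, rfl⟩
  obtain ⟨q, hq⟩ : ∃ q, q = pt k l := ⟨_, rfl⟩
  obtain ⟨m, hm⟩ : ∃ m, m = pt m0 m1 := ⟨_, rfl⟩
  -- tile of the midpoint
  obtain ⟨n0, n1, htm⟩ := exists_partner hT hG m0 m1
  obtain ⟨e', he'⟩ := hM _ htm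
  obtain ⟨hdm, -, -⟩ := grid_pair hmax hx hy he'
  obtain ⟨n, hn⟩ : ∃ n, n = pt n0 n1 := ⟨_, rfl⟩
  rw [← hp, ← hq] at ht hd
  rw [← hm, ← hn] at htm hdm
  have hpq : p ≠ q := ne_of_disj hd
  have hmn : m ≠ n := ne_of_disj hdm
  have hmid0 : m 0 = (p 0 + q 0) / 2 := by
    rw [hm, hp, hq]; simp only [pt_zero]; rw [hm0]; push_cast; ring
  have hmid1 : m 1 = (p 1 + q 1) / 2 := by
    rw [hm, hp, hq]; simp only [pt_one]; rw [hm1]; push_cast; ring
  have hmid : m = midpoint ℝ p q := by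
    apply plane_ext
    · rw [hmid0, midpoint_eq_smul_add]
      simp only [PiLp.smul_apply, PiLp.add_apply, smul_eq_mul, invOf_eq_inv]; ring
    · rw [hmid1, midpoint_eq_smul_add]
      simp only [PiLp.smul_apply, PiLp.add_apply, smul_eq_mul, invOf_eq_inv]; ring
  -- the swap of the first tile
  obtain ⟨g, hgs, hgt, hgc⟩ := hI.2 _ ht p (Or.inl (mem_Sq_self p)) q (Or.inr (mem_Sq_self q))
  rw [comp_eq hd (mem_Sq_self p), comp_eq' hd (mem_Sq_self q)] at hgc
  have gp : g p = q := centre_map hgc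
  have gq : g q = p := by
    rcases pair_map hd hd hgt with ⟨h1, h2⟩ | ⟨h1, h2⟩
    · exact absurd (h1.symm.trans gp) hpq
    · exact h2
  -- symmetries fixing m fix n
  have fixn : ∀ f : Plane ≃ᵢ Plane, f '' (Sq m ∪ Sq n) ∈ F → f m = m → f n = n := by
    intro f hf hfm
    have h1 : m ∈ interior (f '' (Sq m ∪ Sq n)) := by
      have := mem_int_image (g := f) (mem_int_left m n)
      rwa [hfm] at this
    have h2 := tile_unique hT hf htm h1 (mem_int_left m n)
    rcases pair_map hdm hdm h2 with ⟨-, h3⟩ | ⟨h3, -⟩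
    · exact h3
    · exact absurd (hfm.symm.trans h3) hmn
  have gm : g m = m := by
    rw [hmid, IsometryEquiv.map_midpoint, gp, gq, midpoint_comm]
  have gn : g n = n := fixn g (symm_mem hgs htm) gm
  have hdist : dist n p = dist n q := by
    have := g.isometry.dist_eq n p
    rw [gn, gp] at this
    exact this.symm
  -- symmetry from the first tile to the tile of m with p ↦ m, q ↦ n
  obtain ⟨h, hh, hhm, hhn⟩ : ∃ h : Plane ≃ᵢ Plane, IsSymm F h ∧ h p = m ∧ h q = n := by
    obtain ⟨h, hh, hht⟩ := hI.1 _ ht _ htm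
    rcases pair_map hd hdm hht with ⟨h1, h2⟩ | ⟨h1, h2⟩
    · exact ⟨h, hh, h1, h2⟩
    · refine ⟨g.trans h, ?_, ?_, ?_⟩
      · apply isSymm_of
        · intro t ht
          rw [trans_image]
          exact symm_mem hh (symm_mem hgs ht)
        · intro t ht
          refine ⟨g.symm '' (h.symm '' t), symm_mem_symm hgs (symm_mem_symm hh ht), ?_⟩
          rw [trans_image, image_image g g.symm, image_image h]
          simp only [IsometryEquiv.apply_symm_apply]
          rw [image_image]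
          simp
      · show h (g p) = m
        rw [gp]; exact h2
      · show h (g q) = n
        rw [gq]; exact h1
  let g' : Plane ≃ᵢ Plane := (h.trans g).trans h.symm
  have g'_app : ∀ z, g' z = h.symm (g (h z)) := fun z => rfl
  have g'p : g' p = p := by
    rw [g'_app, hhm, gm, ← hhm, h.symm_apply_apply]
  have g'q : g' q = q := by
    rw [g'_app, hhn, gn, ← hhn, h.symm_apply_apply]
  have g'm : g' m = m := by
    rw [hmid, IsometryEquiv.map_midpoint, g'p, g'q]
  have g'tm : g' '' (Sq m ∪ Sq n) ∈ F := by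
    show ((h.trans g).trans h.symm) '' (Sq m ∪ Sq n) ∈ F
    rw [trans_image, trans_image]
    exact symm_mem_symm hh (symm_mem hgs (symm_mem hh htm))
  have g'n : g' n = n := fixn g' g'tm g'm
  have hall := fix_all g'p g'q g'm g'n hmid0 hmid1 hdist hmn.symm hpq
  have h1 := hall (h.symm p)
  rw [g'_app, h.apply_symm_apply, gp] at h1
  exact hpq (h.symm.injective h1).symm

/-- The set of all pairs for which an idiomeric tiling exists, in both readings. -/
theorem result :
    (∀ x y : ℤ, 2 ≤ max |x| |y| →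
      ∃ F : Set (Set Plane), IsTiling F ∧ Monohedral F (Tile x y) ∧ Idiomeric F) ∧
    (∀ x y : ℤ, 2 ≤ max |x| |y| →
      ((∃ F : Set (Set Plane), IsTiling F ∧ Monohedral F (Tile x y) ∧ Idiomeric F ∧ OnGrid F)
        ↔ ¬ (Even x ∧ Even y))) := by
  refine ⟨fun x y h => exists_literal h, fun x y h => ⟨?_, fun hne => exists_grid h hne⟩⟩
  rintro ⟨F, h1, h2, h3, h4⟩ ⟨hx, hy⟩
  exact no_grid h hx hy h1 h2 h3 h4

end Pool.Agent.Results.MP_15d263_co.IdiomericAnswer
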